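import Pool.Agent.HAR.Stmts

/-!
# Squad HAR, row FRS (helper9): fresh sets
-/

namespace Pool.Agent.HAR.H9

open Finset Filter Topology Pool.Agent.HAR

noncomputable section

/-- the number of the `s`-sets with the property `P` -/
def cnt (n s : ℕ) (P : Finset (Fin n) → Prop) : ℕ :=
  Nat.card {S : Finset (Fin n) // S.card = s ∧ P S}

theorem pr_cnt (h : PrmStmt) {n s : ℕ} (S0 : Finset (Fin n)) (hS : S0.card = s)
    (P : Finset (Fin n) → Prop) :
    pr (fun π : Equiv.Perm (Fin n) => P (S0.map π.toEmbedding)) =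
      (cnt n s P : ℝ) / n.choose s := by
  classical
  have h1 := h n s S0 ((powersetCard s (univ : Finset (Fin n))).filter P) hS
    (fun S hS => (mem_powersetCard.1 (mem_filter.1 hS).1).2)
  have h2 : cnt n s P = ((powersetCard s (univ : Finset (Fin n))).filter P).card := by
    unfold cnt
    refine Nat.subtype_card _ fun S => ?_
    simp [mem_powersetCard]
  rw [h2, ← h1]
  congr 1
  funext π
  simp [mem_powersetCard, hS]

theorem em_mono {n : ℕ} {G H : SimpleGraph (Fin n)} {I J : Finset (Fin n)} (h : I ⊆ J)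
    (hJ : Em G H J) : Em G H I := by
  obtain ⟨f, hf1, hf2⟩ := hJ
  exact ⟨f, hf1.mono (by exact_mod_cast h), fun x hx y hy => hf2 x (h hx) y (h hy)⟩

theorem pr_true {Ω : Type} [Finite Ω] [Nonempty Ω] : pr (fun _ : Ω => True) = 1 := by
  unfold pr
  have h1 : Nat.card {ω : Ω // True} = Nat.card Ω :=
    Nat.card_congr (Equiv.subtypeUnivEquiv fun _ => trivial)
  rw [h1]
  have h2 : 0 < Nat.card Ω := Nat.card_pos
  exact div_self (by exact_mod_cast h2.ne')

theorem one_cnt (hone : OneStmt) (n k : ℕ) (G H : SimpleGraph (Fin n)) :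
    cnt n k (fun S => Uq G S ∧ Em G H S) + cnt n k (fun S => Uq G S ∧ Em G H S ∧ ¬ One G H S) ≤
      n.choose k := by
  have h := hone n k G H
  unfold cnt
  exact h

theorem frs (hprm : PrmStmt) (hcvr : CvrStmt) (hone : OneStmt) (hglu : GluStmt)
    (hprb : PrbStmt) : FrsStmt := by
  obtain ⟨pmono, por, pex, -, -, pne⟩ := hprb
  refine eventually_atTop.2 ⟨200, fun n hn G H hT hGH => ?_⟩
  by_contra hcon
  rw [not_le] at hcon
  obtain ⟨k, hk⟩ : ∃ k, k = kk n := ⟨_, rfl⟩
  have hk1 : tt n ≤ k ∧ 2 * k ≤ n := by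
    rw [hk]; unfold tt kk
    omega
  obtain ⟨hk1, hk2⟩ := hk1
  rw [← hk] at hcon
  have hCk : (0 : ℝ) < n.choose k := by exact_mod_cast Nat.choose_pos (by omega)
  have hCs : (0 : ℝ) < n.choose (2 * k) := by exact_mod_cast Nat.choose_pos hk2
  -- not unique sets
  have hnu : ∀ i, tt n ≤ i → i ≤ n → ∀ A : Finset (Fin n), A.card = i →
      pr (fun π : Equiv.Perm (Fin n) => ¬ Uq G (A.map π.toEmbedding)) ≤ 1 / 2000 := by
    intro i hi1 hi2 A hA
    have hC : (0 : ℝ) < n.choose i := by exact_mod_cast Nat.choose_pos hi2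
    rw [pr_cnt hprm A hA (fun S => ¬ Uq G S), div_le_iff₀ hC]
    have h1 := hT i hi1 hi2
    have h2 : cnt n i (fun S => ¬ Uq G S) = _ := Nat.subtype_card
      (p := fun S : Finset (Fin n) => S.card = i ∧ ¬ Uq G S)
      (@Finset.filter _ (fun I => ¬ Uq G I) (fun I => @instDecidableNot _ (Classical.propDecidable _))
        (powersetCard i (univ : Finset (Fin n)))) (fun S => by simp [mem_powersetCard])
    rw [h2]
    exact h1
  -- the sets `S`
  have hS : ∀ S : Finset (Fin n), S.card = 2 * k →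
      pr (fun π : Equiv.Perm (Fin n) => ¬ Em G H (S.map π.toEmbedding)) ≤ 1 / 200 + 1 / 2000 := by
    intro S hS
    have h1 : pr (fun π : Equiv.Perm (Fin n) => Uq G (S.map π.toEmbedding) ∧
        ¬ Em G H (S.map π.toEmbedding)) ≤ 1 / 200 := by
      rw [pr_cnt hprm S hS (fun S => Uq G S ∧ ¬ Em G H S), div_le_iff₀ hCs]
      refine le_trans hcon.le (by linarith)
    have h2 := hnu (2 * k) (by omega) hk2 S hS
    have h3 := pmono (Equiv.Perm (Fin n)) (fun π => ¬ Em G H (S.map π.toEmbedding))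
      (fun π => (Uq G (S.map π.toEmbedding) ∧ ¬ Em G H (S.map π.toEmbedding)) ∨
        ¬ Uq G (S.map π.toEmbedding)) (fun π hπ => by
          by_cases hu : Uq G (S.map π.toEmbedding)
          · exact Or.inl ⟨hu, hπ⟩
          · exact Or.inr hu)
    have h4 := por (Equiv.Perm (Fin n)) (fun π => Uq G (S.map π.toEmbedding) ∧
      ¬ Em G H (S.map π.toEmbedding)) (fun π => ¬ Uq G (S.map π.toEmbedding))
    linarith
  -- the sets `A`
  have hA : ∀ A S : Finset (Fin n), A.card = k → S.card = 2 * k → A ⊆ S →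
      pr (fun π : Equiv.Perm (Fin n) => ¬ One G H (A.map π.toEmbedding)) ≤ 12 / 1000 := by
    intro A S hA hSc hAS
    have h1 : pr (fun π : Equiv.Perm (Fin n) => ¬ Em G H (A.map π.toEmbedding)) ≤
        1 / 200 + 1 / 2000 := by
      have e1 := pmono (Equiv.Perm (Fin n)) (fun π => ¬ Em G H (A.map π.toEmbedding))
        (fun π => ¬ Em G H (S.map π.toEmbedding)) (fun π hπ hE => hπ
          (em_mono (map_subset_map.2 hAS) hE))
      exact e1.trans (hS S hSc)
    have h2 := hnu k hk1 (by omega) A hA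
    have h3 : pr (fun π : Equiv.Perm (Fin n) => Uq G (A.map π.toEmbedding) ∧
          Em G H (A.map π.toEmbedding)) +
        pr (fun π : Equiv.Perm (Fin n) => Uq G (A.map π.toEmbedding) ∧
          Em G H (A.map π.toEmbedding) ∧ ¬ One G H (A.map π.toEmbedding)) ≤ 1 := by
      rw [pr_cnt hprm A hA (fun S => Uq G S ∧ Em G H S),
        pr_cnt hprm A hA (fun S => Uq G S ∧ Em G H S ∧ ¬ One G H S), ← add_div,
        div_le_one hCk]
      exact_mod_cast one_cnt hone n k G H
    have h4 : (1 : ℝ) ≤ pr (fun π : Equiv.Perm (Fin n) => Uq G (A.map π.toEmbedding) ∧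
          Em G H (A.map π.toEmbedding)) +
        (pr (fun π : Equiv.Perm (Fin n) => ¬ Uq G (A.map π.toEmbedding)) +
        pr (fun π : Equiv.Perm (Fin n) => ¬ Em G H (A.map π.toEmbedding))) := by
      have e1 := pmono (Equiv.Perm (Fin n)) (fun _ => True)
        (fun π => (Uq G (A.map π.toEmbedding) ∧ Em G H (A.map π.toEmbedding)) ∨
          (¬ Uq G (A.map π.toEmbedding) ∨ ¬ Em G H (A.map π.toEmbedding))) (fun π _ => by
            tauto)
      rw [pr_true] at e1
      have e2 := por (Equiv.Perm (Fin n)) (fun π => Uq G (A.map π.toEmbedding) ∧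
        Em G H (A.map π.toEmbedding)) (fun π => ¬ Uq G (A.map π.toEmbedding) ∨
          ¬ Em G H (A.map π.toEmbedding))
      have e3 := por (Equiv.Perm (Fin n)) (fun π => ¬ Uq G (A.map π.toEmbedding))
        (fun π => ¬ Em G H (A.map π.toEmbedding))
      linarith
    have h5 : pr (fun π : Equiv.Perm (Fin n) => ¬ One G H (A.map π.toEmbedding)) ≤
        pr (fun π : Equiv.Perm (Fin n) => Uq G (A.map π.toEmbedding) ∧
          Em G H (A.map π.toEmbedding) ∧ ¬ One G H (A.map π.toEmbedding)) +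
        (pr (fun π : Equiv.Perm (Fin n) => ¬ Uq G (A.map π.toEmbedding)) +
        pr (fun π : Equiv.Perm (Fin n) => ¬ Em G H (A.map π.toEmbedding))) := by
      have e1 := pmono (Equiv.Perm (Fin n)) (fun π => ¬ One G H (A.map π.toEmbedding))
        (fun π => (Uq G (A.map π.toEmbedding) ∧ Em G H (A.map π.toEmbedding) ∧
          ¬ One G H (A.map π.toEmbedding)) ∨
          (¬ Uq G (A.map π.toEmbedding) ∨ ¬ Em G H (A.map π.toEmbedding))) (fun π hπ => by
            tauto)
      have e2 := por (Equiv.Perm (Fin n)) (fun π => Uq G (A.map π.toEmbedding) ∧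
        Em G H (A.map π.toEmbedding) ∧ ¬ One G H (A.map π.toEmbedding))
          (fun π => ¬ Uq G (A.map π.toEmbedding) ∨ ¬ Em G H (A.map π.toEmbedding))
      have e3 := por (Equiv.Perm (Fin n)) (fun π => ¬ Uq G (A.map π.toEmbedding))
        (fun π => ¬ Em G H (A.map π.toEmbedding))
      linarith
    linarith
  obtain ⟨A, S, hAc, hAcov, hSS⟩ := hcvr n (by omega)
  rw [← hk] at hAc hSS
  -- union bound
  have u1 := pex (Equiv.Perm (Fin n)) (Fin 12 × Fin 12)
    (fun ab π => ¬ Em G H ((S ab.1 ab.2).map π.toEmbedding)) (1 / 200 + 1 / 2000)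
    (fun ab => hS _ (hSS ab.1 ab.2).1)
  have u2 := pex (Equiv.Perm (Fin n)) (Fin 12)
    (fun a π => ¬ One G H ((A a).map π.toEmbedding)) (12 / 1000)
    (fun a => hA _ (S a a) (hAc a) (hSS a a).1 (hSS a a).2.1)
  rw [Nat.card_prod, Nat.card_fin] at u1
  rw [Nat.card_fin] at u2
  have u3 := por (Equiv.Perm (Fin n))
    (fun π => ∃ ab : Fin 12 × Fin 12, ¬ Em G H ((S ab.1 ab.2).map π.toEmbedding))
    (fun π => ∃ a : Fin 12, ¬ One G H ((A a).map π.toEmbedding))
  have u4 : pr (fun π : Equiv.Perm (Fin n) =>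
      (∃ ab : Fin 12 × Fin 12, ¬ Em G H ((S ab.1 ab.2).map π.toEmbedding)) ∨
      (∃ a : Fin 12, ¬ One G H ((A a).map π.toEmbedding))) < 1 := by
    push_cast at u1 u2
    linarith
  obtain ⟨π, hπ⟩ := pne (Equiv.Perm (Fin n)) _ u4 ⟨Equiv.refl _⟩
  rw [not_or, not_exists, not_exists] at hπ
  refine hGH (hglu n G H (fun a => (A a).map π.toEmbedding)
    (fun a b => (S a b).map π.toEmbedding) (fun x => ?_) (fun a b => ?_) (fun a => ?_)
    (fun a b => ?_))
  · obtain ⟨a, ha⟩ := hAcov (π.symm x)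
    exact ⟨a, mem_map.2 ⟨π.symm x, ha, by simp⟩⟩
  · exact ⟨map_subset_map.2 (hSS a b).2.1, map_subset_map.2 (hSS a b).2.2⟩
  · exact not_not.1 (hπ.2 a)
  · exact not_not.1 (hπ.1 (a, b))

end

end Pool.Agent.HAR.H9
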